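import Mathlib
import Pool.Agent.H22.BcastDefs
import Pool.Agent.H22.BcastEx

set_option autoImplicit false

namespace Pool.Agent.Results.MP_3951c0_co.Counter
open Pool.Agent.H22 Pool.Agent.H22.Bcast

theorem result : ∃ (G : SimpleGraph (Fin 7)) (H : SimpleGraph (Fin 8)) (φ : G ↪g H),
    G.Connected ∧ H.Connected ∧ (∀ u v, G.dist u v = H.dist (φ u) (φ v)) ∧ upperB H < upperB G := by
  refine ⟨gd BcastEx.D8, gd BcastEx.D8, ⟨Fin.castSuccEmb, ?_⟩, gd_conn BcastEx.ok7 (by norm_num),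
    gd_conn BcastEx.ok8 (by norm_num), ?_, ?_⟩
  · intro u v
    rw [gd_adj BcastEx.ok8, gd_adj BcastEx.ok7]
    rfl
  · intro u v
    rw [gd_dist BcastEx.ok8, gd_dist BcastEx.ok7]
    rfl
  · have h1 := BcastEx.up8
    have h2 := BcastEx.lo7
    omega

end Pool.Agent.Results.MP_3951c0_co.Counter
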